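import Pool.Agent.N111.GG.Five

/-!
MP_160ed4_ag, Q1: the conditions of the generalized Green-Griffiths-Lang conjecture for the
varieties with jointly generically finite multi-valued maps to varieties of high powers, and their
relative forms for the fibration given by all such maps on an arbitrary projective variety.

A *multi-valued map* (`MultiMap ℂ L s N r`, in `Pool/Agent/N111/GG/Eng.lean`) from the variety `M`
with function field `L` is a correspondence `M ← W → V`, where `W → M` is a generically finite
rational map of degree at most `r`, and `W → V` is a dominant rational map, with fibres of any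
dimension, to a closed subvariety `V`, of any dimension, of a projective variety `{F = 0}`, which is
given by finitely many sums of at most `s` powers of linear forms with exponents at least `N`, or by
finitely many forms with at most `s` monomials and exponents divisible by numbers at least `N`
(`HighPowers s N F`); it is assumed that `V` is not covered by rational curves of `{F = 0}`
(`¬ RatCurve F y`), or that `V` is an irreducible component of `{F = 0}` and not birational to
`B × ℙ¹` for any `B`. (All `V`, all `F`, and all `W` are allowed.) The values of the functions on `V`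
along the branches of the multi-valued map are algebraic functions on `M`, that is, elements of an
algebraic closure of `L` (`MultiMap.values`); a function `z` on `M` is `AlgebraicOverValues` if it is
algebraic over the field generated by the values of all functions under all multi-valued maps. If all
functions on `M` have this property, the multi-valued maps are jointly generically finite: no curve
through a general point of `M` is contracted by all of them. For instance, `M` can be a closed
subvariety of a product `V 1 × ... × V l` whose projections to the factors are not covered by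
rational curves, or a quotient of such a variety by a finite group of order at most `r`, or a
variety with a generically finite map to one of these.

The function-field language of the starting repository is used: `x` is the generic point of `M` in
homogeneous coordinates, `SubOf ℂ x z`: `z` is the generic point of a closed subvariety of `M`, with
function field `E`; `GeneralType L`: the varieties with function field `L` are of general type;
`StronglyGeneral x`: off a proper closed subset, all closed subvarieties of positive dimension are of
general type; `EntireCurve`, `PseudoBrody` (`Pool/Agent/Y221/BD/Defs.lean`): off a proper closed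
subset there are no entire curves; `EssentialDisc`, `PseudoPicard`; `MeroMap`, `PseudoAbelian`;
`TorusCurve`, `PseudoTorus` (`Pool/Agent/Y221/PD/Defs.lean`): the same for the holomorphic maps from
the punctured disc with an essential singularity, for the nonconstant meromorphic maps from the
spaces `ℂ ^ g`, and for the nonconstant morphisms from the multiplicative group. The nonconstant
rational maps from semi-abelian varieties to `M` include the last ones, and they lift to
meromorphic maps from `ℂ ^ g` by the universal covering. `Disc x f`
(`Pool/Agent/N111/GG/Picard.lean`): `t ↦ (f t 0 : ... : f t M)` is a holomorphic map from the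
punctured unit disc to `M`, without condition at the origin.
-/

set_option autoImplicit false
set_option linter.overlappingInstances false

namespace Pool.Agent.Results.MP_160ed4_ag.CoreFive

open Pool.Agent.W602.GT (GeneralType val coords IsForm)
open Pool.Agent.TH466.QG (StronglyGeneral SubOf)
open Pool.Agent.Y221.BD (EntireCurve PseudoBrody)
open Pool.Agent.Y221.PD (PseudoPicard PseudoAbelian PseudoTorus MeroMap TorusCurve)
open Pool.Agent.N111.GG (MultiMap Disc)
open Metric Topology

/-- The function `z` on `M` is algebraic over the field which is generated by the values of all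
multi-valued maps from `M` (with at most `r` values) to closed subvarieties of systems of high powers
(with at most `s` terms and exponents at least `N`). -/
def AlgebraicOverValues (s N r : ℕ) {L : Type} [Field L] [Algebra ℂ L] (z : L) : Prop :=
  IsAlgebraic (IntermediateField.adjoin ℂ
      (⋃ C : MultiMap ℂ L s N r, C.values (AlgebraicClosure L)))
    (algebraMap L (AlgebraicClosure L) z)

/-- The composition of the holomorphic map `f` from the punctured unit disc and the rational map
`(G 0 : ... : G q)` extends over the origin: the functions `G i / G i₀` are meromorphic at the origin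
along `f`. (They are meromorphic off the origin along `f` if `G i₀` does not vanish identically along
`f`.) -/
def ExtendsAlong {M q : ℕ} (G : Fin (q + 1) → MvPolynomial (Fin (M + 1)) ℂ) (i₀ : Fin (q + 1))
    (f : ℂ → Fin (M + 1) → ℂ) : Prop :=
  ∀ i, ∃ ρ : ℂ → ℂ, MeromorphicAt ρ 0 ∧ ∀ᶠ t in 𝓝[≠] (0 : ℂ),
    MvPolynomial.eval (f t) (G i) = ρ t * MvPolynomial.eval (f t) (G i₀)

/-- Let `M` be any projective variety, of dimension `m ≥ 1`, with function field `L` and generic
point `x`, and let `N ≥ m * (4 * 10 ^ s * (r + 1) ^ 7)`.

**(1)** If all functions on `M` are algebraic over the values of the multi-valued maps, then `M` is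
of general type, and proper closed subsets of `M` contain all closed subvarieties of positive
dimension which are not of general type, all punctured discs with an essential singularity, all
entire curves, all nonconstant meromorphic images of the spaces `ℂ ^ g` and all nonconstant images
of the multiplicative group.

**(2)** In general, the functions on `M` which are algebraic over the values of the multi-valued maps
are the function field `L₀` of the base of a rational fibration `M ⇢ M₀` (`L₀` is algebraically
closed in `L`); `M₀` is a point or of general type, and all its projective models have all the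
properties of (1).

**(3)** Let `G` be a rational map with fibration `M ⇢ M₀` to a projective model of `M₀`, that is, the
forms `G 0, ..., G q` of the same degree have values at `x` whose ratios generate `L₀`. Off *one*
proper closed subset `{R = 0}` of `M`,
- all holomorphic maps from the punctured disc, with any singularity at the origin, extend over the
  origin after composition with `G`;
- `G` is constant along all entire curves, along all nonconstant meromorphic maps from the spaces
  `ℂ ^ g`, and along all nonconstant morphisms from the multiplicative group;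
- all closed subvarieties (`z`, with function field `E`) are mapped by `G` to points or to varieties
  of general type. -/
theorem result {L : Type} [Field L] [Algebra ℂ L] {M : ℕ} {x : Fin (M + 1) → L} (hx : x ≠ 0)
    (hgen : coords ℂ x = ⊤) {m s r N : ℕ} (hm : Algebra.trdeg ℂ L = m) (hm1 : 1 ≤ m)
    (hN : m * (4 * 10 ^ s * (r + 1) ^ 7) ≤ N) :
    ((∀ z : L, AlgebraicOverValues s N r z) →
      GeneralType ℂ L m ∧ StronglyGeneral ℂ x ∧ PseudoPicard x ∧ PseudoBrody x ∧
        PseudoAbelian x ∧ PseudoTorus x) ∧
    ∃ (L₀ : IntermediateField ℂ L) (n : ℕ),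
      ((∀ z : L, z ∈ L₀ ↔ AlgebraicOverValues s N r z) ∧
        (∀ z : L, IsAlgebraic L₀ z → z ∈ L₀) ∧
        Algebra.trdeg ℂ L₀ = n ∧ (1 ≤ n → GeneralType ℂ L₀ n) ∧
        ∀ (q : ℕ) (u : Fin (q + 1) → L₀), u ≠ 0 → coords ℂ u = ⊤ →
          StronglyGeneral ℂ u ∧ PseudoPicard u ∧ PseudoBrody u ∧ PseudoAbelian u ∧
            PseudoTorus u) ∧
      ∀ (q d : ℕ) (G : Fin (q + 1) → MvPolynomial (Fin (M + 1)) ℂ) (i₀ : Fin (q + 1)),
        (∀ i, (G i).IsHomogeneous d) → val x (G i₀) ≠ 0 →
        coords ℂ (fun i => val x (G i)) = L₀ →
        ∃ R : MvPolynomial (Fin (M + 1)) ℂ, IsForm R ∧ val x R ≠ 0 ∧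
          (∀ f, Disc x f → (∃ t ∈ ball (0 : ℂ) 1 \ {0}, MvPolynomial.eval (f t) R ≠ 0) →
            ExtendsAlong G i₀ f) ∧
          (∀ f, EntireCurve x f → (∃ t, MvPolynomial.eval (fun i => f i t) R ≠ 0) →
            ∃ c : Fin (q + 1) → ℂ, ∀ i t, MvPolynomial.eval (fun i => f i t) (G i) =
              c i * MvPolynomial.eval (fun i => f i t) (G i₀)) ∧
          (∀ g h, MeroMap x g h → (∃ t, MvPolynomial.eval (fun i => h i t) R ≠ 0) →
            ∃ c : Fin (q + 1) → ℂ, ∀ i t, MvPolynomial.eval (fun i => h i t) (G i) =
              c i * MvPolynomial.eval (fun i => h i t) (G i₀)) ∧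
          (∀ f, TorusCurve x f → (∃ t, t ≠ 0 ∧ MvPolynomial.eval (fun i => (f i).eval t) R ≠ 0) →
            ∃ c : Fin (q + 1) → ℂ, ∀ i t, t ≠ 0 →
              MvPolynomial.eval (fun i => (f i).eval t) (G i) =
                c i * MvPolynomial.eval (fun i => (f i).eval t) (G i₀)) ∧
          ∀ (E : Type) [Field E] [Algebra ℂ E] (z : Fin (M + 1) → E), SubOf ℂ x z →
            val z R ≠ 0 → ∀ w : ℕ, 1 ≤ w →
              Algebra.trdeg ℂ (coords ℂ fun i => val z (G i)) = w →
              GeneralType ℂ (coords ℂ fun i => val z (G i)) w := by
  obtain ⟨hN2, hN3⟩ := Pool.Agent.Y221.BD.both hm1 hN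
  have hN1 : 1 ≤ N := (Pool.Agent.Y221.AB.one_le_NB r s).trans hN2
  obtain ⟨n, hnm, hn⟩ := Pool.Agent.N111.GG.exists_trdeg
    (Pool.Agent.N111.GG.core ℂ L s N r) hm
  refine ⟨fun h => ?_, Pool.Agent.N111.GG.core ℂ L s N r, n, ⟨fun z => ?_, fun z hz =>
    Pool.Agent.N111.GG.core_closed hz, hn, fun hn1 =>
    Pool.Agent.N111.GG.core_general hN1 hm hN3 hn hn1, fun q u hu hu' => ?_⟩, ?_⟩
  · obtain ⟨A, hA⟩ := Pool.Agent.N111.GG.exists_fam_all (s := s) (N := N) (r := r)
      (Ω := AlgebraicClosure L) hm (fun z => Pool.Agent.N111.FT.mem_aclo.2 (h z))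
    have hB := A.pseudo hN2 hA hx hgen
    exact ⟨A.general hN1 hm hm1 hN3 hA, A.strong hN1 hm hN3 hA hx hgen,
      A.picard_all hN2 hA hx hgen, hB, Pool.Agent.Y221.PD.abelian_of_brody hB,
      Pool.Agent.Y221.PD.torus_of_brody hB⟩
  · exact Pool.Agent.N111.FT.mem_aclo
  · have hB := Pool.Agent.N111.GG.core_pseudo hN2 hm hu hu'
    exact ⟨Pool.Agent.N111.GG.core_strong hN1 hm hN3 hu hu',
      Pool.Agent.N111.GG.core_picard hN2 hm hu hu', hB,
      Pool.Agent.Y221.PD.abelian_of_brody hB, Pool.Agent.Y221.PD.torus_of_brody hB⟩
  · intro q d G i₀ hG h0 hh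
    have hh' : ∀ i, val x (G i) / val x (G i₀) ∈ Pool.Agent.N111.GG.core ℂ L s N r := by
      intro i
      rw [← hh]
      exact IntermediateField.subset_adjoin _ _ ⟨i, i₀, h0, rfl⟩
    obtain ⟨R₁, ⟨d₁, hR₁⟩, hx₁, h₁⟩ := Pool.Agent.N111.GG.core_discs hN2 hx hgen hG h0 hh'
    obtain ⟨R₂, ⟨d₂, hR₂⟩, hx₂, h₂⟩ := Pool.Agent.N111.GG.core_fibres hN2 hx hgen hG h0 hh'
    obtain ⟨R₃, ⟨d₃, hR₃⟩, hx₃, h₃⟩ := Pool.Agent.N111.GG.core_mero hN2 hx hgen hG h0 hh'
    obtain ⟨R₄, ⟨d₄, hR₄⟩, hx₄, h₄⟩ := Pool.Agent.N111.GG.core_torus hN2 hx hgen hG h0 hh'
    obtain ⟨R₅, ⟨d₅, hR₅⟩, hx₅, h₅⟩ := Pool.Agent.N111.GG.core_subs hN1 hm hN3 hG h0 hh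
    have hv : ∀ {E : Type} [Field E] [Algebra ℂ E] (z : Fin (M + 1) → E)
        (P Q : MvPolynomial (Fin (M + 1)) ℂ), val z (P * Q) = val z P * val z Q :=
      fun z P Q => map_mul _ _ _
    refine ⟨R₁ * R₂ * R₃ * R₄ * R₅, ⟨_, (((hR₁.mul hR₂).mul hR₃).mul hR₄).mul hR₅⟩, ?_,
      fun f hf => ?_, fun f hf => ?_, fun g h hf => ?_, fun f hf => ?_, fun E _ _ z hz hzR => ?_⟩
    · rw [hv, hv, hv, hv]
      exact mul_ne_zero (mul_ne_zero (mul_ne_zero (mul_ne_zero hx₁ hx₂) hx₃) hx₄) hx₅
    · rintro ⟨t, ht, htR⟩
      simp only [map_mul, mul_ne_zero_iff] at htR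
      exact h₁ f hf ⟨t, ht, htR.1.1.1.1⟩
    · rintro ⟨t, htR⟩
      simp only [map_mul, mul_ne_zero_iff] at htR
      exact h₂ f hf ⟨t, htR.1.1.1.2⟩
    · rintro ⟨t, htR⟩
      simp only [map_mul, mul_ne_zero_iff] at htR
      exact h₃ g h hf ⟨t, htR.1.1.2⟩
    · rintro ⟨t, ht, htR⟩
      simp only [map_mul, mul_ne_zero_iff] at htR
      exact h₄ f hf ⟨t, ht, htR.1.2⟩
    · simp only [hv, mul_ne_zero_iff] at hzR
      exact h₅ E z hz hzR.2

end Pool.Agent.Results.MP_160ed4_ag.CoreFive
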