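import Pool.Agent.N111.GJ.Stmt

/-!
MP_26d9ad_nt, Q1: the Lang–Vojta conjecture for the affine varieties with finite correspondences to
generic pairs, with the exact bounds for the hypothesis and for the conclusion of the conjecture.

Let `K` be an algebraically closed field of characteristic `0`, and let `k` be a field contained in
`K`, with algebraic closure `k'` in `K`. A *generic affine pair* `X` (`GenericPair k K`, in
`Pool/Agent/N111/GJ/Def.lean`) defines the affine variety `U`, the complement of hypersurfaces
`F b = 0`, `b ∉ C`, in the intersection of a closed subset `V` of a projective space, defined over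
`k'`, of dimension at most `m`, and of the hypersurfaces `F c = 0`, `c ∈ C`, where the ratios of the
coefficients of the forms `F a`, of degrees `d a`, to one of them are, for all `a` together,
algebraically independent over `k`. Let `X.size` be the sum of all the numbers `d a` and of the number
of elements of `C`.

Let `M` be an affine variety over `K`, with function field `L` and coordinates `u`. A *finite
correspondence* `M ← W → U` (`IsCorr X u x`, in `Pool/Agent/N111/GJ/Stmt.lean`) is given by a finite
extension `L'` of `L`, the function field of `W`, and a point `x` of `U` with coordinates in `L'` such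
that `W → M` is finite, where `W` is the closure of the graph in the product of `M` and `U`: the
values at `x` of the functions `x ^ I / F b` on `U` are integral over the ring of functions on `M`.
`FibresLE X u x r`: the fibres of `W → M` have at most `r` points; if `M` is normal, `r` can be the
degree `[L' : L]` of `W → M` (part (5)). `QuasiFinite X u x`: the fibres of `W → U` are finite. For
instance, `M` can be the quotient of an affine variety `W`, quasi-finite over `U`, by a finite group
of order at most `r`, such as `(P^n ∖ ⋃ g D) / G`, where `D` is a generic hypersurface and `G` is a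
finite group of automorphisms of `P^n`; or any normal variety which is the image of such a `W` under a
finite map of degree at most `r`. For `r = 1` and `M` normal, these are the varieties `M` which are
quasi-finite over `U`.

The closed subvarieties of `M` of positive dimension are given by their generic points `z`, in their
function fields `E` (`IsSub K u z w`, where `w` is the dimension). The subvariety is of log general
type if `LogGeneralType K E w` holds for the set of the places `P` at which some of the coordinates are
not regular; these are the places without centre on the subvariety. `IntPts u e R`: the points of `M`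
of degree at most `e` over the ring `R`, that is, with coordinates integral over `R`, in some
extension of degree at most `e` of the field of fractions of `R`. For `e = 1` and `R` normal, these are
the `R`-points of `M`.

The proof that the subvarieties are of log general type: the traces, from `W` to `M`, of the
products of a twisted logarithmic canonical form and of the products of `2 r - 1` coordinates of `x`
are logarithmic canonical forms, and their ratios generate the whole function field up to algebraic
extensions, because the point `x` is determined by the Hankel matrices of the traces of the products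
of its coordinates.
-/

set_option autoImplicit false
set_option linter.overlappingInstances false

namespace Pool.Agent.N111.Shelf.FiniteCorrespondences

open Pool.Agent.N111.GJ (GenericPair IsSub IntPts)
open Pool.Agent.N111.GJ.FC

theorem result {k K : Type} [Field k] [Field K] [IsAlgClosed K] [CharZero K] [Algebra k K] :
    -- `M`: any affine variety over `K`, with function field `L` and coordinates `u`
    (∀ (L : Type) [Field L] [Algebra K L] (N : ℕ) (u : Fin N → L),
      IntermediateField.adjoin K (Set.range u) = ⊤ →
      -- `M ← W → U`: any finite correspondence, whose fibres over `M` have at most `r` points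
      (∀ (X : GenericPair k K) (L' : Type) [Field L'] [Algebra K L'] [Algebra L L']
        [IsScalarTower K L L'] [FiniteDimensional L L'] (x : Fin (X.n + 1) → L') (r : ℕ),
        IsCorr X u x → FibresLE X u x r →
        -- (1) if it is generically finite on a closed subvariety of positive dimension `w`, then
        -- the subvariety is of log general type
        (∀ (E : Type) [Field E] [Algebra K E] (w : ℕ) (z : Fin N → E), 0 < w → IsSub K u z w →
          GenericallyFiniteOn X u x z → 2 * X.m + 2 * r ≤ X.size + w → LogGeneral K z w) ∧
        -- (2) if it is not constant on a closed subvariety, then the integral points of degree at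
        -- most `e` of the subvariety are not dense in it
        (∀ (E : Type) [Field E] [Algebra K E] (w : ℕ) (z : Fin N → E), IsSub K u z w →
          ¬ ConstantOn X u x z → ∀ e : ℕ, 2 * X.m + 2 * (r * e) ≤ X.size → ∀ R : Subring K,
          InFinGen k R → NotDense K z (IntPts z e R)) ∧
        -- (3) if it is quasi-finite over `U`, then it is generically finite on all the closed
        -- subvarieties, so all of them are of log general type if `2 m + 2 r ≤ size + 1`, and there
        -- are only finitely many integral points of degree at most `e` if `2 m + 2 r e ≤ size`
        (QuasiFinite X u x →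
          (∀ (E : Type) [Field E] [Algebra K E] (w : ℕ) (z : Fin N → E), IsSub K u z w →
            GenericallyFiniteOn X u x z) ∧
          (2 * X.m + 2 * r ≤ X.size + 1 → AllLogGeneral K u) ∧
          ∀ e : ℕ, 2 * X.m + 2 * (r * e) ≤ X.size → FinitePoints k K u e)) ∧
      -- (4) only finitely many integral points are not on closed subvarieties of positive
      -- dimension on which all the correspondences are constant
      (∀ (e : ℕ) (R : Subring K), InFinGen k R →
        {s ∈ IntPts u e R | ¬ OnConstant k K u e s}.Finite) ∧
      -- (5) the fibres over a normal variety
      ((∀ z : L, IsIntegral (Algebra.adjoin K (Set.range u)) z →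
        z ∈ Algebra.adjoin K (Set.range u)) → ∀ (X : GenericPair k K) (L' : Type) [Field L']
        [Algebra K L'] [Algebra L L'] [IsScalarTower K L L'] [FiniteDimensional L L']
        (x : Fin (X.n + 1) → L'), IsCorr X u x → FibresLE X u x (Module.finrank L L'))) ∧
    -- (6) the bounds in (3) are exact, for each generic pair with lines
    ∀ X : GenericPair k K, WithLines X → ∀ r : ℕ, 0 < r →
      -- the bound for log general type
      ((∀ (L : Type) [Field L] [Algebra K L] (N : ℕ) (u : Fin N → L),
        IntermediateField.adjoin K (Set.range u) = ⊤ → Dominated X r u → AllLogGeneral K u) ↔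
        2 * X.n + 2 * r ≤ X.size + 1) ∧
      -- the bound for the finiteness of the integral points of degree `1`
      ((∀ (L : Type) [Field L] [Algebra K L] (N : ℕ) (u : Fin N → L),
        IntermediateField.adjoin K (Set.range u) = ⊤ → Dominated X r u → FinitePoints k K u 1) ↔
        2 * X.n + 2 * r ≤ X.size) ∧
      -- if there are subvarieties that are not of log general type, then there are infinitely many
      -- integral points over some ring that is finitely generated over the integers
      (X.size + 2 ≤ 2 * X.n + 2 * r → ∃ (L : Type) (_ : Field L) (_ : Algebra K L)
        (u : Fin 2 → L), IntermediateField.adjoin K (Set.range u) = ⊤ ∧ Dominated X r u ∧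
        ∃ T : Finset K, (IntPts u 1 (Subring.closure (T : Set K))).Infinite) := by
  have hinfK : Infinite K := IsAlgClosed.instInfinite
  refine ⟨fun L _ _ N u hgen => ⟨fun X L' _ _ _ _ _ x r hc hr => ?_,
    fun e R ⟨T, hR⟩ => ?_, fun hnorm X L' _ _ _ _ _ x hc => ?_⟩, ?_⟩
  · let W : Pool.Agent.N111.GJ.Corr k K u :=
      { X := X, L' := L', x := x, pt := hc.pt, integral := hc.integral }
    have hr' : W.FibresLE r := hr
    refine ⟨fun E _ _ w z hw hz hW hd => Pool.Agent.N111.GJ.log_general (W := W) hr' hz hw hW hd,
      fun E _ _ w z hz hW e hd R ⟨T, hR⟩ => ?_, fun hq => ?_⟩
    · unfold ConstantOn at hW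
      push Not at hW
      obtain ⟨φ, hφ, v, hv, hne⟩ := hW
      exact Pool.Agent.N111.GJ.nondense (W := W) hr' hz.gen hφ hv hne hd T hR
    · have hqf : W.QuasiFinite := hq
      exact ⟨fun E _ _ w z hz => Pool.Agent.N111.GJ.gf_of_qf hqf hz,
        fun hd E _ _ w z hw hz => Pool.Agent.N111.GJ.log_general hr' hz hw
          (Pool.Agent.N111.GJ.gf_of_qf hqf hz) (by
            have : 2 * W.X.m + 2 * r ≤ W.X.size + 1 := hd
            omega),
        fun e hd R ⟨T, hR⟩ => Pool.Agent.N111.GJ.finite_of_qf hr' hqf hd T hR⟩
  · refine (Pool.Agent.N111.GJ.finite_off (k := k) (u := u) e T hR).subset fun s hs =>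
      ⟨hs.1, fun ⟨E, i1, i2, w, z, hw, hz, hs', h⟩ => hs.2 ⟨E, i1, i2, w, z, hw, hz, hs', ?_⟩⟩
    intro X L' _ _ _ _ _ x r hc hr hd
    exact h { X := X, L' := L', x := x, pt := hc.pt, integral := hc.integral } r hr hd
  · exact Pool.Agent.N111.GJ.fib_normal hnorm (W :=
      { X := X, L' := L', x := x, pt := hc.pt, integral := hc.integral })
  rintro X ⟨hV, hm, hn, hd, hC⟩ r hr
  refine ⟨?_, ?_, fun hs => ?_⟩
  · rw [← Pool.Agent.N111.GJ.exact_lgt X hV hm hn hd hC hr]
    constructor
    · rintro h L _ _ N u hgen W rfl hWr hWq
      exact h L N u hgen ⟨W.L', W.field, W.algK, W.algL, W.tower, W.fd, W.x,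
        ⟨W.pt, W.integral⟩, hWr, hWq⟩
    · rintro h L _ _ N u hgen ⟨L', i1, i2, i3, i4, i5, x, hc, hWr, hWq⟩
      exact h L N u hgen { X := X, L' := L', x := x, pt := hc.pt, integral := hc.integral } rfl
        hWr hWq
  · constructor
    · intro h
      rw [← Pool.Agent.N111.GJ.exact_pts X hV hm hn hd hC hr]
      rintro L _ _ N u hgen W rfl hWr hWq T
      exact h L N u hgen ⟨W.L', W.field, W.algK, W.algL, W.tower, W.fd, W.x,
        ⟨W.pt, W.integral⟩, hWr, hWq⟩ _ ⟨T, le_rfl⟩
    · rintro h L _ _ N u - ⟨L', i1, i2, i3, i4, i5, x, hc, hWr, hWq⟩ R ⟨T, hR⟩
      refine Pool.Agent.N111.GJ.finite_of_qf (W :=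
        { X := X, L' := L', x := x, pt := hc.pt, integral := hc.integral }) hWr hWq (e := 1) ?_
        T hR
      change 2 * X.m + 2 * (r * 1) ≤ X.size
      omega
  · obtain ⟨L, i1, i2, u, hgen, -, hnorm, ⟨W, hWX, hWd, hWq⟩, -, hT⟩ :=
      Pool.Agent.N111.GJ.exact_gm X hV hn hd hC hr hs
    subst hWX
    exact ⟨L, i1, i2, u, hgen, ⟨W.L', W.field, W.algK, W.algL, W.tower, W.fd, W.x,
      ⟨W.pt, W.integral⟩, Pool.Agent.N111.GJ.FibresLE.mono
      (Pool.Agent.N111.GJ.fib_normal hnorm) hWd, hWq⟩, hT⟩

end Pool.Agent.N111.Shelf.FiniteCorrespondences
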