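import Pool.Agent.N111.GG.Top

/-!
MP_2a5ae2_ag, Q1: the Green-Griffiths-Lang conjecture for the varieties with jointly generically
finite multi-valued maps to varieties of high powers, and the fibration given by all such maps on an
arbitrary projective variety.

A *multi-valued map* (`MultiMap ℂ L s N r`, in `Pool/Agent/N111/GG/Eng.lean`) from the variety `M`
with function field `L` is a correspondence `M ← W → V`, where `W → M` is a generically finite
rational map of degree at most `r`, and `W → V` is a dominant rational map, with fibres of any
dimension, to a closed subvariety `V`, of any dimension, of a projective variety `{F = 0}`, which is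
given by finitely many sums of at most `s` powers of linear forms with exponents at least `N`, or by
finitely many forms with at most `s` monomials and exponents divisible by numbers at least `N`
(`HighPowers s N F`); it is assumed that `V` is not covered by rational curves of `{F = 0}`
(`¬ RatCurve F y`), or that `V` is an irreducible component of `{F = 0}` and not birational to
`B × ℙ¹` for any `B`. (All `V`, all `F`, and all `W` are allowed.) The values of the functions on `V`
along the branches of the multi-valued map are algebraic functions on `M`, that is, elements of an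
algebraic closure of `L` (`MultiMap.values`); a function `z` on `M` is `AlgebraicOverValues` if it is
algebraic over the field generated by the values of all functions under all multi-valued maps.

If all functions on `M` have this property, the multi-valued maps are jointly generically finite: no
curve through a general point of `M` is contracted by all of them. Examples: closed subvarieties of
products `V 1 × ... × V l` whose projections to the factors are not covered by rational curves of
`{F i = 0}`, the quotients `(V 1 × ... × V l) / G` by finite groups of order at most `r`, the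
symmetric powers `Sym ^ r V` and Hilbert schemes of `r` points of `V` (which is a surface), and
everything which is generically finite over one of these, or which is dominated by one of these by a
map of bounded degree. For a single map, with `dim V = dim M`, part (1) is the theorem
`DominatedBrody` of the starting repository.

`StronglyGeneral x`: off a proper closed subset of the variety with generic point `x`, all closed
subvarieties of positive dimension are of general type. `PseudoBrody x`: off a proper closed subset
there are no (nonconstant) entire curves. `EntireCurve x f`: `t ↦ (f 0 t : ... : f M t)` is a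
nonconstant entire curve in the variety with generic point `x`.
-/

set_option autoImplicit false
set_option linter.overlappingInstances false

namespace Pool.Agent.Results.MP_2a5ae2_ag.HighPowerCore

open Pool.Agent.W602.GT (GeneralType val coords IsForm)
open Pool.Agent.TH466.QG (StronglyGeneral)
open Pool.Agent.Y221.BD (EntireCurve PseudoBrody)
open Pool.Agent.N111.GG (MultiMap)

/-- The function `z` on `M` is algebraic over the field which is generated by the values of all
multi-valued maps from `M` (with at most `r` values) to closed subvarieties of systems of high powers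
(with at most `s` terms and exponents at least `N`). -/
def AlgebraicOverValues (s N r : ℕ) {L : Type} [Field L] [Algebra ℂ L] (z : L) : Prop :=
  IsAlgebraic (IntermediateField.adjoin ℂ
      (⋃ C : MultiMap ℂ L s N r, C.values (AlgebraicClosure L)))
    (algebraMap L (AlgebraicClosure L) z)

/-- The branches of a multi-valued map from `M` to `V`, as embeddings of the function field of `V`
in a field `Ω` which contains the function field of `M`. -/
def branches {F : Type} [Field F] [Algebra ℂ F] {s N r : ℕ} (C : MultiMap ℂ F s N r)
    (Ω : Type) [Field Ω] [Algebra ℂ Ω] [Algebra F Ω] [IsScalarTower ℂ F Ω] :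
    Set (C.K →ₐ[ℂ] Ω) :=
  {φ | ∃ ψ : C.K' →ₐ[F] Ω,
    φ = (ψ.restrictScalars ℂ).comp (IsScalarTower.toAlgHom ℂ C.K C.K')}

/-- The entire curve `f` is Zariski dense in the projective variety with generic point `x`: it is not
contained in the zero set of a form which does not vanish at `x`. -/
def ZariskiDense {L : Type} [Field L] [Algebra ℂ L] {M : ℕ} (x : Fin (M + 1) → L)
    (f : Fin (M + 1) → ℂ → ℂ) : Prop :=
  ∀ R : MvPolynomial (Fin (M + 1)) ℂ, IsForm R → val x R ≠ 0 →
    ∃ t, MvPolynomial.eval (fun i => f i t) R ≠ 0

/-- Let `M` be any projective variety, of dimension `m ≥ 1`, with function field `L` and generic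
point `x`, and let `N ≥ m * (4 * 10 ^ s * (r + 1) ^ 7)`.

**(1)** If all functions on `M` are algebraic over the values of the multi-valued maps, then `M` is
of general type, strongly of general type and pseudo-Brody hyperbolic.

**(2)** In general, the functions on `M` which are algebraic over the values of the multi-valued maps
are the function field `L₀` of the base of a rational fibration `M ⇢ M₀` (`L₀` is algebraically
closed in `L`); `M₀` is a point or of general type, all its projective models are strongly of
general type and pseudo-Brody hyperbolic, and all multi-valued maps from `M` are compositions of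
`M ⇢ M₀` and multi-valued maps from `M₀` (with the same branches); in particular, their images have
dimension at most `dim M₀`.

**(3)** The entire curves in `M` off a proper closed subset lie in the fibres of `M ⇢ M₀`: if the
forms `G 0, ..., G q` give a rational map from `M` which factors through `M ⇢ M₀` (their ratios are
in `L₀`) then there is a form `R`, with `R(x) ≠ 0`, such that the map is constant along all entire
curves in `M` which are not contained in `{R = 0}`.

**(4)** If `M` contains a Zariski dense entire curve then `M₀` is a point, and all multi-valued maps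
from `M` to closed subvarieties of systems of high powers are constant. -/
theorem result {L : Type} [Field L] [Algebra ℂ L] {M : ℕ} {x : Fin (M + 1) → L} (hx : x ≠ 0)
    (hgen : coords ℂ x = ⊤) {m s r N : ℕ} (hm : Algebra.trdeg ℂ L = m) (hm1 : 1 ≤ m)
    (hN : m * (4 * 10 ^ s * (r + 1) ^ 7) ≤ N) :
    ((∀ z : L, AlgebraicOverValues s N r z) →
      GeneralType ℂ L m ∧ StronglyGeneral ℂ x ∧ PseudoBrody x) ∧
    ∃ (L₀ : IntermediateField ℂ L) (n : ℕ),
      ((∀ z : L, z ∈ L₀ ↔ AlgebraicOverValues s N r z) ∧
        (∀ z : L, IsAlgebraic L₀ z → z ∈ L₀) ∧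
        Algebra.trdeg ℂ L₀ = n ∧ (1 ≤ n → GeneralType ℂ L₀ n) ∧
        (∀ (q : ℕ) (u : Fin (q + 1) → L₀), u ≠ 0 → coords ℂ u = ⊤ →
          StronglyGeneral ℂ u ∧ PseudoBrody u) ∧
        ∀ C : MultiMap ℂ L s N r, C.w ≤ n ∧
          (∀ z : C.K, IsAlgebraic L₀ (algebraMap C.K C.K' z)) ∧
          ∃ (C₀ : MultiMap ℂ L₀ s N r) (e : C.K ≃ₐ[ℂ] C₀.K), branches C (AlgebraicClosure L) =
            {φ | ∃ φ₀ ∈ branches C₀ (AlgebraicClosure L), φ = φ₀.comp (e : C.K →ₐ[ℂ] C₀.K)}) ∧
      (∀ (q d : ℕ) (G : Fin (q + 1) → MvPolynomial (Fin (M + 1)) ℂ) (i₀ : Fin (q + 1)),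
        (∀ i, (G i).IsHomogeneous d) → val x (G i₀) ≠ 0 →
        (∀ i, val x (G i) / val x (G i₀) ∈ L₀) →
        ∃ R : MvPolynomial (Fin (M + 1)) ℂ, IsForm R ∧ val x R ≠ 0 ∧
          ∀ f, EntireCurve x f → (∃ t, MvPolynomial.eval (fun i => f i t) R ≠ 0) →
            ∃ c : Fin (q + 1) → ℂ, ∀ i t, MvPolynomial.eval (fun i => f i t) (G i) =
              c i * MvPolynomial.eval (fun i => f i t) (G i₀)) ∧
      ((∃ f, EntireCurve x f ∧ ZariskiDense x f) →
        L₀ = ⊥ ∧ ∀ C : MultiMap ℂ L s N r, C.w = 0) := by
  obtain ⟨hN2, hN3⟩ := Pool.Agent.Y221.BD.both hm1 hN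
  have hN1 : 1 ≤ N := (Pool.Agent.Y221.AB.one_le_NB r s).trans hN2
  obtain ⟨n, hnm, hn⟩ := Pool.Agent.N111.GG.exists_trdeg
    (Pool.Agent.N111.GG.core ℂ L s N r) hm
  refine ⟨fun h => ?_, Pool.Agent.N111.GG.core ℂ L s N r, n, ⟨fun z => ?_, fun z hz =>
    Pool.Agent.N111.GG.core_closed hz, hn, fun hn1 =>
    Pool.Agent.N111.GG.core_general hN1 hm hN3 hn hn1, fun q u hu hu' => ⟨?_, ?_⟩, fun C =>
    ⟨Pool.Agent.N111.GG.le_core C hn, Pool.Agent.N111.GG.alg_core C, ?_⟩⟩, ?_, ?_⟩
  · obtain ⟨A, hA⟩ := Pool.Agent.N111.GG.exists_fam_all (s := s) (N := N) (r := r)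
      (Ω := AlgebraicClosure L) hm (fun z => Pool.Agent.N111.FT.mem_aclo.2 (h z))
    exact ⟨A.general hN1 hm hm1 hN3 hA, A.strong hN1 hm hN3 hA hx hgen,
      A.pseudo hN2 hA hx hgen⟩
  · exact Pool.Agent.N111.FT.mem_aclo
  · exact Pool.Agent.N111.GG.core_strong hN1 hm hN3 hu hu'
  · exact Pool.Agent.N111.GG.core_pseudo hN2 hm hu hu'
  · obtain ⟨C₀, e, h1, h2⟩ := C.descend (fun z hz => Pool.Agent.N111.GG.core_closed hz)
      (Pool.Agent.N111.GG.alg_core C)
    refine ⟨C₀, e, Set.Subset.antisymm ?_ ?_⟩
    · rintro _ ⟨ψ, rfl⟩
      obtain ⟨ψ₀, h⟩ := h1 _ ψ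
      exact ⟨C₀.br ψ₀, ⟨ψ₀, rfl⟩, AlgHom.ext h⟩
    · rintro _ ⟨_, ⟨ψ₀, rfl⟩, rfl⟩
      obtain ⟨ψ, h⟩ := h2 _ ψ₀
      exact ⟨ψ, AlgHom.ext fun z => (h z).symm⟩
  · intro q d G i₀ hG h0 hh
    exact Pool.Agent.N111.GG.core_fibres hN2 hx hgen hG h0 hh
  · rintro ⟨f, hf, hd⟩
    have h1 := Pool.Agent.N111.GG.core_of_dense hN2 hx hgen hf hd
    refine ⟨h1, fun C => ?_⟩
    have h2 : Algebra.trdeg ℂ (Pool.Agent.N111.GG.core ℂ L s N r) = (0 : ℕ) := by
      rw [h1, Nat.cast_zero, trdeg_eq_zero_iff]
      infer_instance
    exact Nat.le_zero.1 (Pool.Agent.N111.GG.le_core C h2)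

end Pool.Agent.Results.MP_2a5ae2_ag.HighPowerCore
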